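import Pool.Agent.H1.Tb4

set_option autoImplicit false

namespace Pool.Agent.Results.MP_0e5d84_co.No

open Pool.Agent.H28.TangDefs
open scoped Matroid

/-- `M` is a geometry (simple matroid) representable over `F`. -/
def InL (F : Type) [Field F] {m : ℕ} (M : Matroid (Fin m)) : Prop :=
  Representable F M ∧ IsSimple M

/-- tangential `k`-block over `F`: critical exponent above `k`, at most `k` for every proper
simple minor -/
def Tangential (F : Type) [Field F] [Fintype F] (k : ℕ) {m : ℕ} (M : Matroid (Fin m)) : Prop :=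
  InL F M ∧ ¬ CritLE (Fintype.card F) k M ∧
    ∀ N : Matroid (Fin m), N <m M → IsSimple N → CritLE (Fintype.card F) k N

/-- `h(M(k;q); n)` -/
noncomputable def hM (F : Type) [Field F] [Fintype F] (k n : ℕ) : ℕ∞ :=
  ⨆ (m : ℕ) (M : Matroid (Fin m)) (_ : InL F M ∧ M.eRank = n ∧
    ∀ N : Matroid (Fin m), N ≤m M → ¬ Tangential F k N), M.E.encard

/-- `h(EX(S_k(q)) ∩ L(q); n)` -/
noncomputable def hS (F : Type) [Field F] [Fintype F] (k n : ℕ) : ℕ∞ :=
  ⨆ (m : ℕ) (M : Matroid (Fin m)) (_ : InL F M ∧ M.eRank = n ∧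
    ∀ N : Matroid (Fin m), N ≤m M → ¬ (Tangential F k N ∧ Supersolvable N)), M.E.encard

theorem result : ∃ (F : Type) (_ : Field F) (_ : Fintype F), Fintype.card F = 4 ∧
    hM F 1 3 ≤ 8 ∧ 9 ≤ hS F 1 3 ∧ hM F 1 3 < hS F 1 3 := by
  have h1 : hM Pool.Agent.H1.Tb4.F4 1 3 ≤ 8 := by
    refine iSup_le fun m => iSup_le fun M => iSup_le fun h => ?_
    exact Pool.Agent.H1.Tb4.upper h.1.1 h.1.2 h.2.1 fun N hN hh =>
      h.2.2 N hN ⟨⟨hh.1, hh.2.1⟩, hh.2.2⟩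
  have h2 : 9 ≤ hS Pool.Agent.H1.Tb4.F4 1 3 := by
    refine le_iSup_of_le 9 (le_iSup_of_le Pool.Agent.H1.Tb4.A (le_iSup_of_le ⟨⟨⟨3, _,
      Pool.Agent.H28.Crit.represents_of_rep Pool.Agent.H1.Tb4.rep⟩, Pool.Agent.H1.Tb4.simple⟩,
      ?_, fun N hN hh => ?_⟩ ?_))
    · rw [Matroid.eRank_def]
      exact Pool.Agent.H1.Tb4.rank
    · by_cases hNA : N = Pool.Agent.H1.Tb4.A
      · exact Pool.Agent.H1.Tb4.not_ss (hNA ▸ hh.2)
      · exact hh.1.2.1 (Pool.Agent.H1.Tb4.proper_crit N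
          (Matroid.isStrictMinor_iff_isMinor_ne.2 ⟨hN, hNA⟩) hh.1.1.2)
    · have : Pool.Agent.H1.Tb4.A.E = Set.univ := rfl
      rw [this, Set.encard_univ]
      simp
  exact ⟨Pool.Agent.H1.Tb4.F4, inferInstance, inferInstance, Pool.Agent.H1.Tb4.card_F4, h1, h2,
    h1.trans_lt (lt_of_lt_of_le (by norm_num) h2)⟩

end Pool.Agent.Results.MP_0e5d84_co.No
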